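import Pool.Agent.H523.CM58

set_option autoImplicit false

/-!
# The Friedlander-Goldston asymptotic over finite fields, for almost all moduli

The question in the polynomial ring over a finite field with `q` elements: the monic polynomials
of degree `n` take the place of the integers of size `X = q ^ n`, the monic polynomials `Q` of
degree `d` the place of the moduli of size `q ^ d`.
-/

namespace Pool.Agent.Results.MP_5dd4bb_nt.AlmostAllModuli

open Polynomial Filter
open Pool.Agent.H341R2.Sharp (Mon mem_Mon)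
open Pool.Agent.H523.FF (Ir mem_Ir PL mem_PL IrLE mem_IrLE two_le_card)
open Pool.Agent.H523

/-- the von Mangoldt function of the polynomial ring: `deg P` for `f = P ^ k`, `k ≥ 1`, `P` monic
irreducible, and `0` for all other `f` -/
noncomputable def vonMangoldt {F : Type} [Field F] (f : F[X]) : ℕ :=
  ∑ᶠ P ∈ {P : F[X] | P.Monic ∧ Irreducible P ∧ ∃ k : ℕ, 1 ≤ k ∧ f = P ^ k}, P.natDegree

/-- `ψ(n; Q, A)`, the sum of the von Mangoldt function over the monic polynomials of degree `n` in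
the class of `A` modulo `Q` -/
noncomputable def psi {F : Type} [Field F] (n : ℕ) (Q A : F[X]) : ℕ :=
  ∑ᶠ f ∈ {f : F[X] | f.Monic ∧ f.natDegree = n ∧ Q ∣ f - A}, vonMangoldt f

/-- Euler's function: the number of the reduced residue classes modulo `Q` -/
noncomputable def totient {F : Type} [Field F] (Q : F[X]) : ℕ :=
  {A : F[X] | A.degree < Q.degree ∧ IsCoprime A Q}.ncard

/-- the variance `G(n, Q)` -/
noncomputable def variance {F : Type} [Field F] [Fintype F] (n : ℕ) (Q : F[X]) : ℝ :=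
  ∑ᶠ A ∈ {A : F[X] | A.degree < Q.degree ∧ IsCoprime A Q},
    ((psi n Q A : ℝ) - (Fintype.card F : ℝ) ^ n / totient Q) ^ 2

/-- the constant `C_Q = q / (q - 1) + ∑ deg P / (|P| - 1)`, the sum over the monic irreducible
divisors of `Q` -/
noncomputable def constC {F : Type} [Field F] [Fintype F] (Q : F[X]) : ℝ :=
  (Fintype.card F : ℝ) / ((Fintype.card F : ℝ) - 1) +
    ∑ᶠ P ∈ {P : F[X] | P.Monic ∧ Irreducible P ∧ P ∣ Q},
      (P.natDegree : ℝ) / ((Fintype.card F : ℝ) ^ P.natDegree - 1)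

/-- the number of the monic irreducible divisors of `Q` -/
noncomputable def omega {F : Type} [Field F] (Q : F[X]) : ℕ :=
  {P : F[X] | P.Monic ∧ Irreducible P ∧ P ∣ Q}.ncard

open scoped Classical in
lemma classes_eq {F : Type} [Field F] [Fintype F] {Q : F[X]} (hQ : Q.Monic) :
    {A : F[X] | A.degree < Q.degree ∧ IsCoprime A Q} =
      (((PL F Q.natDegree).filter (fun A => IsCoprime A Q) : Finset F[X]) : Set F[X]) := by
  ext A
  rw [Set.mem_ofPred_eq, Finset.coe_filter, Set.mem_ofPred_eq, mem_PL, degree_eq_natDegree hQ.ne_zero]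

lemma totient_eq {F : Type} [Field F] [Fintype F] {Q : F[X]} (hQ : Q.Monic) :
    totient Q = CM.tot Q := by
  unfold totient CM.tot
  rw [classes_eq hQ, Set.ncard_coe_finset]

lemma divisors_eq {F : Type} [Field F] [Fintype F] {Q : F[X]} (hQ : Q.Monic) :
    {P : F[X] | P.Monic ∧ Irreducible P ∧ P ∣ Q} = ((CM.pd Q : Finset F[X]) : Set F[X]) := by
  ext P
  rw [Set.mem_ofPred_eq, Finset.mem_coe, CM.mem_pd hQ]

lemma omega_eq {F : Type} [Field F] [Fintype F] {Q : F[X]} (hQ : Q.Monic) :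
    omega Q = (CM.pd Q).card := by
  unfold omega
  rw [divisors_eq hQ, Set.ncard_coe_finset]

lemma vonMangoldt_pow {F : Type} [Field F] {P : F[X]} (h1 : P.Monic) (h2 : Irreducible P) {k : ℕ}
    (hk : 1 ≤ k) : vonMangoldt (P ^ k) = P.natDegree := by
  unfold vonMangoldt
  have h : {R : F[X] | R.Monic ∧ Irreducible R ∧ ∃ j : ℕ, 1 ≤ j ∧ P ^ k = R ^ j} = {P} := by
    ext R
    rw [Set.mem_ofPred_eq, Set.mem_singleton_iff]
    constructor
    · rintro ⟨h3, h4, j, hj, h5⟩
      have h6 : R ∣ P ^ k := by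
        rw [h5]
        exact dvd_pow_self R (by omega)
      have h7 := h4.prime.dvd_of_dvd_pow h6
      exact eq_of_monic_of_associated h3 h1 ((h4.dvd_irreducible_iff_associated h2).mp h7)
    · rintro rfl
      exact ⟨h1, h2, k, hk, rfl⟩
  rw [h, finsum_mem_singleton]

lemma psi_eq {F : Type} [Field F] [Fintype F] {n : ℕ} (hn : 1 ≤ n) (Q A : F[X]) :
    (psi n Q A : ℝ) = CM.psv n Q A := by
  classical
  -- the prime powers of degree `n` in the class
  have h1 : psi n Q A = ∑ f ∈ (Mon F n).filter (fun f => Q ∣ f - A), vonMangoldt f := by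
    unfold psi
    have h : {f : F[X] | f.Monic ∧ f.natDegree = n ∧ Q ∣ f - A} =
        (((Mon F n).filter (fun f => Q ∣ f - A) : Finset F[X]) : Set F[X]) := by
      ext f
      rw [Set.mem_ofPred_eq, Finset.coe_filter, Set.mem_ofPred_eq, mem_Mon, and_assoc]
    rw [h, finsum_mem_coe_finset]
  set D : Finset (Σ _ : ℕ, F[X]) := n.divisors.sigma
    (fun e => (Ir F e).filter (fun P => Q ∣ P ^ (n / e) - A)) with hD
  have hinj : ∀ x ∈ D, ∀ y ∈ D, x.2 ^ (n / x.1) = y.2 ^ (n / y.1) → x = y := by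
    rintro ⟨e, P⟩ hx ⟨e', P'⟩ hy h
    rw [hD, Finset.mem_sigma, Finset.mem_filter, mem_Ir] at hx hy
    simp only at hx hy h
    obtain ⟨hx1, ⟨hx2, hx3, hx4⟩, hx5⟩ := hx
    obtain ⟨hy1, ⟨hy2, hy3, hy4⟩, hy5⟩ := hy
    have hxe := Nat.mem_divisors.mp hx1
    have hye := Nat.mem_divisors.mp hy1
    have hx6 : n / e ≠ 0 := by
      have : 0 < e := Nat.pos_of_dvd_of_pos hxe.1 (by omega)
      exact (Nat.div_pos (Nat.le_of_dvd (by omega) hxe.1) this).ne'
    have h2 : P ∣ P' ^ (n / e') := by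
      rw [← h]
      exact dvd_pow_self P hx6
    have h3 := hx3.prime.dvd_of_dvd_pow h2
    have h4 := eq_of_monic_of_associated hx2 hy2 ((hx3.dvd_irreducible_iff_associated hy3).mp h3)
    subst h4
    have h5 : e = e' := by rw [← hx4, ← hy4]
    subst h5
    rfl
  have h2 : ∑ f ∈ (Mon F n).filter (fun f => Q ∣ f - A), vonMangoldt f =
      ∑ x ∈ D, x.1 := by
    have h3 : ∀ x ∈ D, vonMangoldt (x.2 ^ (n / x.1)) = x.1 := by
      rintro ⟨e, P⟩ hx
      rw [hD, Finset.mem_sigma, Finset.mem_filter, mem_Ir] at hx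
      simp only at hx ⊢
      obtain ⟨hx1, ⟨hx2, hx3, hx4⟩, hx5⟩ := hx
      have hxe := Nat.mem_divisors.mp hx1
      have : 0 < e := Nat.pos_of_dvd_of_pos hxe.1 (by omega)
      rw [vonMangoldt_pow hx2 hx3 (Nat.div_pos (Nat.le_of_dvd (by omega) hxe.1) this), hx4]
    rw [← Finset.sum_congr rfl h3, ← Finset.sum_image (s := D) (g := fun x => x.2 ^ (n / x.1))
      (f := fun f => vonMangoldt f) hinj]
    symm
    apply Finset.sum_subset_zero_on_sdiff
    · intro f hf
      rw [Finset.mem_image] at hf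
      obtain ⟨⟨e, P⟩, hx, rfl⟩ := hf
      rw [hD, Finset.mem_sigma, Finset.mem_filter, mem_Ir] at hx
      simp only at hx ⊢
      obtain ⟨hx1, ⟨hx2, hx3, hx4⟩, hx5⟩ := hx
      rw [Finset.mem_filter, mem_Mon]
      refine ⟨⟨hx2.pow _, ?_⟩, hx5⟩
      rw [natDegree_pow, hx4]
      exact Nat.div_mul_cancel (Nat.mem_divisors.mp hx1).1
    · intro f hf
      rw [Finset.mem_sdiff, Finset.mem_filter, mem_Mon] at hf
      obtain ⟨⟨⟨hf1, hf2⟩, hf3⟩, hf4⟩ := hf
      unfold vonMangoldt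
      have h5 : {P : F[X] | P.Monic ∧ Irreducible P ∧ ∃ k : ℕ, 1 ≤ k ∧ f = P ^ k} = ∅ := by
        rw [Set.eq_empty_iff_forall_notMem]
        rintro P ⟨h6, h7, k, hk, h8⟩
        apply hf4
        rw [Finset.mem_image]
        have h9 : k * P.natDegree = n := by rw [← hf2, h8, natDegree_pow]
        have h10 : 0 < P.natDegree := h7.natDegree_pos
        have h11 : n / P.natDegree = k := by
          rw [← h9]
          exact Nat.mul_div_cancel k h10
        refine ⟨⟨P.natDegree, P⟩, ?_, ?_⟩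
        · rw [hD, Finset.mem_sigma, Finset.mem_filter, mem_Ir]
          refine ⟨Nat.mem_divisors.mpr ⟨⟨k, by rw [← h9, mul_comm]⟩, by omega⟩, ⟨h6, h7, rfl⟩, ?_⟩
          simp only
          rw [h11, ← h8]
          exact hf3
        · simp only
          rw [h11, h8]
      rw [h5, finsum_mem_empty]
    · intro f _
      rfl
  rw [h1, h2, hD, Finset.sum_sigma]
  unfold CM.psv CM.cnt
  push_cast
  refine Finset.sum_congr rfl (fun e _ => ?_)
  rw [Finset.sum_const, nsmul_eq_mul, mul_comm]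

lemma variance_eq {F : Type} [Field F] [Fintype F] {n : ℕ} (hn : 1 ≤ n) {Q : F[X]} (hQ : Q.Monic) :
    variance n Q = CM.GV n Q := by
  unfold variance CM.GV
  rw [classes_eq hQ, finsum_mem_coe_finset]
  refine Finset.sum_congr rfl (fun A _ => ?_)
  rw [psi_eq hn, totient_eq hQ]

lemma constC_eq {F : Type} [Field F] [Fintype F] {Q : F[X]} (hQ : Q.Monic) :
    constC Q = (Fintype.card F : ℝ) / ((Fintype.card F : ℝ) - 1) +
      ∑ P ∈ CM.pd Q, P.natDegree * CM.gP P := by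
  unfold constC
  rw [divisors_eq hQ, finsum_mem_coe_finset]
  congr 1
  refine Finset.sum_congr rfl (fun P _ => ?_)
  unfold CM.gP
  rw [div_eq_mul_one_div]

/-- **The Friedlander-Goldston asymptotic over finite fields, for almost all moduli, with a power
saving.** -/
theorem result : ∃ K : ℝ, ∀ ε : ℝ, 0 < ε → ∃ δ : ℝ, 0 < δ ∧ ∃ N : ℕ,
    ∀ (F : Type) [Field F] [Fintype F] (n d : ℕ), N ≤ n → (3 / 4 + ε) * n ≤ d → d < n →
      ({Q : F[X] | Q.Monic ∧ Q.natDegree = d ∧
        (Fintype.card F : ℝ) ^ n * ((Fintype.card F : ℝ) ^ (-(δ * n)) +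
          K * 4 ^ omega Q * (Fintype.card F : ℝ) ^ (-(((n:ℝ) - d) / 8))) <
        |variance n Q - (Fintype.card F : ℝ) ^ n * (d - constC Q)|}.ncard : ℝ) ≤
          (Fintype.card F : ℝ) ^ d * (Fintype.card F : ℝ) ^ (-(δ * n)) ∧
      ((d:ℝ) ≤ (1 - ε) * n → ({Q : F[X] | Q.Monic ∧ Q.natDegree = d ∧
        (Fintype.card F : ℝ) ^ n * (Fintype.card F : ℝ) ^ (-(δ * n)) <
        |variance n Q - (Fintype.card F : ℝ) ^ n * (d - constC Q)|}.ncard : ℝ) ≤
          (Fintype.card F : ℝ) ^ d * (Fintype.card F : ℝ) ^ (-(δ * n))) := by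
  classical
  refine ⟨24 * Real.exp 18, fun ε hε => ?_⟩
  have hε1 : 0 < min ε (1 / 4) := lt_min hε (by norm_num)
  obtain ⟨δ₁, hδ₁, N₁, h1⟩ := CM.fg_gen (min ε (1 / 4)) hε1 (min_le_right _ _)
  obtain ⟨δ₂, hδ₂, N₂, h2⟩ := CM.fg_mangoldt (min ε (1 / 4)) hε1 (min_le_right _ _)
  refine ⟨min δ₁ δ₂, lt_min hδ₁ hδ₂, N₁ + N₂ + 1, ?_⟩
  intro F _ _ n d hn hd1 hdn
  have hq := two_le_card (F := F)
  set q : ℝ := (Fintype.card F : ℝ) with hqd
  have hq0 : 0 < q := by linarith
  set δ := min δ₁ δ₂ with hδ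
  have hn1 : 1 ≤ n := by omega
  have hd1' : (3 / 4 + min ε (1 / 4)) * (n:ℝ) ≤ d := by
    refine le_trans ?_ hd1
    apply mul_le_mul_of_nonneg_right _ (Nat.cast_nonneg n)
    linarith [min_le_left ε (1 / 4)]
  have hpow : ∀ a : ℝ, (q ^ n) ^ (-a) = q ^ (-(a * n)) := by
    intro a
    rw [← Real.rpow_natCast, ← Real.rpow_mul hq0.le]
    congr 1
    ring
  have hmono : ∀ a b : ℝ, a ≤ b → q ^ (-(b * n)) ≤ q ^ (-(a * n)) := by
    intro a b hab
    apply Real.rpow_le_rpow_of_exponent_le (by linarith)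
    have : a * n ≤ b * n := mul_le_mul_of_nonneg_right hab (Nat.cast_nonneg n)
    linarith
  have hδ1 : δ ≤ δ₁ := min_le_left _ _
  have hδ2 : δ ≤ δ₂ := min_le_right _ _
  -- the second error term
  have hEQ : ∀ Q : F[X], Q.Monic → Q.natDegree = d → CM.EQ n Q ≤
      q ^ n * (24 * Real.exp 18 * 4 ^ omega Q * q ^ (-(((n:ℝ) - d) / 8))) := by
    intro Q hQ hQd
    unfold CM.EQ
    rw [hQd, omega_eq hQ, ← hqd]
    apply mul_le_mul_of_nonneg_left _ (by positivity)
    have hpr : ∀ P ∈ CM.pd Q, P.Monic ∧ Irreducible P := fun P hP =>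
      ⟨((CM.mem_pd hQ).mp hP).1, ((CM.mem_pd hQ).mp hP).2.1⟩
    have h3 : ∏ P ∈ CM.pd Q, (1 + CM.gP P) ≤ (2:ℝ) ^ (CM.pd Q).card := by
      rw [← Finset.prod_const]
      refine Finset.prod_le_prod (fun P hP => ?_) (fun P hP => ?_)
      · have := CM.gP_pos (hpr P hP).2
        linarith
      · have := CM.gP_le_one (hpr P hP).2
        linarith
    have hrho := CM.rho_ge (F := F)
    have h4 : 1 / CM.rho F ^ (n - d) = q ^ (-(((n:ℝ) - d) / 8)) := by
      have h5 : CM.rho F ^ (8:ℕ) = q := by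
        rw [hqd, ← CM.om_four (F := F), ← CM.rho_sq, ← pow_mul]
      have hr0 : 0 < CM.rho F := by linarith
      have h6 : CM.rho F = q ^ ((1:ℝ) / 8) := by
        rw [← h5, ← Real.rpow_natCast, ← Real.rpow_mul hr0.le]
        norm_num
      rw [h6, ← Real.rpow_natCast, ← Real.rpow_mul hq0.le, Nat.cast_sub hdn.le, one_div,
        ← Real.rpow_neg hq0.le]
      congr 1
      ring
    have h5 : 0 < q ^ (-(((n:ℝ) - d) / 8)) := Real.rpow_pos_of_pos hq0 _
    calc (∏ P ∈ CM.pd Q, (1 + CM.gP P)) *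
          (24 * (Real.exp 18 * 2 ^ (CM.pd Q).card) / CM.rho F ^ (n - d))
        = (24 * Real.exp 18 * 2 ^ (CM.pd Q).card * (1 / CM.rho F ^ (n - d))) *
          ∏ P ∈ CM.pd Q, (1 + CM.gP P) := by ring
      _ ≤ (24 * Real.exp 18 * 2 ^ (CM.pd Q).card * (1 / CM.rho F ^ (n - d))) *
          2 ^ (CM.pd Q).card := by
          apply mul_le_mul_of_nonneg_left h3
          rw [h4]
          positivity
      _ = 24 * Real.exp 18 * (2 ^ (CM.pd Q).card * 2 ^ (CM.pd Q).card) * q ^ (-(((n:ℝ) - d) / 8)) := by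
          rw [h4]
          ring
      _ = _ := by
          rw [← mul_pow]
          norm_num
  constructor
  · have h3 := h1 F n d (by omega) hd1' hdn
    rw [← hqd, hpow δ₁] at h3
    have h4 : {Q : F[X] | Q.Monic ∧ Q.natDegree = d ∧
        q ^ n * (q ^ (-(δ * n)) + 24 * Real.exp 18 * 4 ^ omega Q * q ^ (-(((n:ℝ) - d) / 8))) <
        |variance n Q - q ^ n * (d - constC Q)|} ⊆
      (((Mon F d).filter (fun Q => q ^ n * q ^ (-(δ₁ * n)) + CM.EQ n Q < |CM.GV n Q - q ^ n * (d -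
          q / (q - 1) - ∑ P ∈ CM.pd Q, P.natDegree * CM.gP P)|) : Finset F[X]) : Set F[X]) := by
      rintro Q ⟨hQ1, hQ2, hQ3⟩
      rw [Finset.coe_filter, Set.mem_ofPred_eq, mem_Mon]
      refine ⟨⟨hQ1, hQ2⟩, ?_⟩
      have h5 := hEQ Q hQ1 hQ2
      have h6 := mul_le_mul_of_nonneg_left (hmono δ δ₁ hδ1) (by positivity : 0 ≤ q ^ n)
      rw [variance_eq hn1 hQ1, constC_eq hQ1, ← hqd, ← sub_sub] at hQ3
      refine lt_of_le_of_lt ?_ hQ3
      rw [mul_add]
      linarith
    have h5 := Set.ncard_le_ncard h4 (Finset.finite_toSet _)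
    rw [Set.ncard_coe_finset] at h5
    refine le_trans (by exact_mod_cast h5) (h3.trans ?_)
    exact mul_le_mul_of_nonneg_left (hmono δ δ₁ hδ1) (by positivity)
  · intro hd2
    have hd2' : (d:ℝ) ≤ (1 - min ε (1 / 4)) * n := by
      refine hd2.trans ?_
      apply mul_le_mul_of_nonneg_right _ (Nat.cast_nonneg n)
      linarith [min_le_left ε (1 / 4)]
    have h3 := h2 F n d (by omega) hd1' hd2'
    rw [← hqd, hpow δ₂] at h3
    have h4 : {Q : F[X] | Q.Monic ∧ Q.natDegree = d ∧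
        q ^ n * q ^ (-(δ * n)) < |variance n Q - q ^ n * (d - constC Q)|} ⊆
      (((Mon F d).filter (fun Q => q ^ n * q ^ (-(δ₂ * n)) < |CM.GV n Q - q ^ n * (d -
          q / (q - 1) - ∑ P ∈ CM.pd Q, P.natDegree * CM.gP P)|) : Finset F[X]) : Set F[X]) := by
      rintro Q ⟨hQ1, hQ2, hQ3⟩
      rw [Finset.coe_filter, Set.mem_ofPred_eq, mem_Mon]
      refine ⟨⟨hQ1, hQ2⟩, ?_⟩
      have h6 := mul_le_mul_of_nonneg_left (hmono δ δ₂ hδ2) (by positivity : 0 ≤ q ^ n)
      rw [variance_eq hn1 hQ1, constC_eq hQ1, ← hqd, ← sub_sub] at hQ3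
      exact lt_of_le_of_lt h6 hQ3
    have h5 := Set.ncard_le_ncard h4 (Finset.finite_toSet _)
    rw [Set.ncard_coe_finset] at h5
    refine le_trans (by exact_mod_cast h5) (h3.trans ?_)
    exact mul_le_mul_of_nonneg_left (hmono δ δ₂ hδ2) (by positivity)

end Pool.Agent.Results.MP_5dd4bb_nt.AlmostAllModuli
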