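import Pool.Agent.H862.VP.All

/-!
# A sharp unconditional lower bound for the variance, for every large modulus, on long averages

`G x q` is the variance of the problem. For every large modulus `q` the Abel mean of
`G(x, q) / (x log q)` over `x` (of length `log x ~ (log q) / (2 δ)`) is at least
`1 + bad q - δ - ε`, where `bad q ≥ 0` is the share, with the weights `1 / (1/4 + γ ^ 2)`, of the
nontrivial zeros which are multiple or not on the critical line, among all the zeros of the
L-functions of the nonprincipal characters modulo `q`. Nothing is assumed, and there is no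
exceptional modulus. Under Hooley's asymptotic formula the Abel mean tends to
`(1 - exp (-2 δ)) / (2 δ) = 1 - δ + O(δ ^ 2)`, so the constant is sharp; and any positive
proportion of bad zeros makes the variance larger than Hooley's value on long averages.

The proof rests on the unfinished projects `NH13.UV` and `NH13.WV` of an earlier run, which are
completed here.
-/

set_option autoImplicit false

open Complex MeasureTheory Filter Topology Set

namespace Pool.Agent.Results.MP_5dd4bb_nt.LowerBoundBadZeros

/-- `ψ(x; q, a)`, for `0 ≤ a < q` -/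
noncomputable def psi (x : ℝ) (q a : ℕ) : ℝ :=
  ∑ n ∈ (Finset.Icc 1 ⌊x⌋₊).filter (fun n => n % q = a), ArithmeticFunction.vonMangoldt n

/-- the variance `G(x, q)` of the problem -/
noncomputable def G (x : ℝ) (q : ℕ) : ℝ :=
  ∑ a ∈ (Finset.range q).filter (fun a => a.Coprime q), (psi x q a - x / q.totient) ^ 2

/-- the Abel mean of `G(x, q) / (x log q)` with respect to `dx / x`, with the weight
`(2 δ / log q) x ^ (- 2 δ / log q)` of total mass one on `[1, ∞)` -/
noncomputable def abelMean (q : ℕ) (δ : ℝ) : ENNReal :=
  ENNReal.ofReal (2 * δ) * ((∫⁻ x in Ioi (1 : ℝ), ENNReal.ofReal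
    (G x q * x ^ (-2 - 2 * δ / Real.log q))) / ENNReal.ofReal (Real.log q ^ 2))

/-- the nonprincipal characters modulo `q` -/
noncomputable def nonprincipal (q : ℕ) [NeZero q] : Finset (DirichletCharacter ℂ q) := by
  classical exact Finset.univ.filter (fun χ => χ ≠ 1)

/-- the multiplicity of a zero -/
noncomputable def mult {q : ℕ} [NeZero q] (χ : DirichletCharacter ℂ q) (s : ℂ) : ℕ :=
  analyticOrderNatAt (DirichletCharacter.LFunction χ) s

/-- the nontrivial zeros of `L(s, χ)` which are multiple or not on the critical line -/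
def badZeros {q : ℕ} [NeZero q] (χ : DirichletCharacter ℂ q) : Set ℂ :=
  {s : ℂ | (DirichletCharacter.LFunction χ s = 0 ∧ 0 < s.re ∧ s.re < 1) ∧
    (s.re ≠ 1 / 2 ∨ 2 ≤ mult χ s)}

/-- the number of the bad zeros, with multiplicity and with the weights `1 / (1/4 + γ ^ 2)`, for
all the nonprincipal characters modulo `q`, divided by `φ(q) log q` -/
noncomputable def bad (q : ℕ) [NeZero q] : ℝ :=
  1 / (Real.log q * q.totient) * ∑ χ ∈ nonprincipal q,
    ∑' s : badZeros χ, (mult χ s : ℝ) / (1 / 4 + (s : ℂ).im ^ 2)

/-- **The lower bound for the variance, for every large modulus.** -/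
theorem result (δ ε : ℝ) (hδ : 0 < δ) (hε : 0 < ε) : ∃ q0 : ℕ, ∀ (q : ℕ) [NeZero q], q0 ≤ q →
    0 ≤ bad q ∧ ENNReal.ofReal (1 + bad q - δ - ε) ≤ abelMean q δ := by
  obtain ⟨q0, h⟩ := Pool.Agent.H862.VP.All.BZ' δ ε hδ hε
  refine ⟨max q0 2, fun q _ hq => ⟨?_, h q (le_trans (le_max_left _ _) hq)⟩⟩
  have hq2 : 2 ≤ q := le_trans (le_max_right _ _) hq
  have hl : 0 < Real.log q := Real.log_pos (by exact_mod_cast (by omega : 1 < q))
  have hφ : 0 < (q.totient : ℝ) := by exact_mod_cast Nat.totient_pos.2 (by omega)
  refine mul_nonneg (by positivity) (Finset.sum_nonneg fun χ _ => tsum_nonneg fun s => ?_)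
  positivity

end Pool.Agent.Results.MP_5dd4bb_nt.LowerBoundBadZeros
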